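import Pool.Agent.R97.AsymSum

/-!
MP_697cf1_co, Q2 is false, for every pair `m > ℓ ≥ 1`.
-/

set_option autoImplicit false

open Filter

namespace Pool.Agent.Results.MP_697cf1_co.NoShiftThresholdFails

/-- the upper natural density of a set `A` of positive integers,
`limsup_N |A ∩ {1, …, N}| / N` -/
noncomputable def upperDensity (A : Set ℕ) : ℝ :=
  limsup (fun N : ℕ => ((A ∩ Set.Icc 1 N).ncard : ℝ) / (N : ℝ)) atTop

/-- the set `m B + ℓ B` of all `m b₁ + ℓ b₂` with `b₁, b₂ ∈ B`, in both orders and with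
`b₁ = b₂` allowed -/
def sums (m l : ℕ) (B : Set ℕ) : Set ℕ := {x | ∃ b₁ ∈ B, ∃ b₂ ∈ B, x = m * b₁ + l * b₂}

/-- For all integers `m > ℓ ≥ 1`, with `k = m / ℓ`, there is a set `A` of positive integers of upper
density larger than `1 - 1 / (ℓ (k + 1) (k + 2))` that contains no set `m B + ℓ B` with `B`
infinite. -/
theorem result (m l : ℕ) (hl : 1 ≤ l) (hlm : l < m) :
    ∃ A : Set ℕ, 0 ∉ A ∧
      1 - 1 / ((l : ℝ) * ((m : ℝ) / l + 1) * ((m : ℝ) / l + 2)) < upperDensity A ∧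
      ∀ B : Set ℕ, B.Infinite → ¬ sums m l B ⊆ A := by
  obtain ⟨A, h0, h1, h2⟩ := Pool.Agent.R97.AsymSum.main m l (m + l) hl hlm (by omega) dvd_rfl
  refine ⟨A, h0, ?_, fun B hB hsub => h2 B hB 0 (dvd_zero _) ?_⟩
  · have hl0 : (0 : ℝ) < l := by exact_mod_cast hl
    have hm0 : (0 : ℝ) < m := by exact_mod_cast (by omega : 0 < m)
    have e : 1 - 1 / ((l : ℝ) * ((m : ℝ) / l + 1) * ((m : ℝ) / l + 2)) =
        1 - (l : ℝ) / (((m + l : ℕ) : ℝ) * (m + 2 * l)) := by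
      push_cast
      field_simp
    rw [e]
    exact h1
  · rintro x ⟨b₁, hb1, b₂, hb2, rfl⟩
    exact hsub ⟨b₁, hb1, b₂, hb2, by simp⟩

end Pool.Agent.Results.MP_697cf1_co.NoShiftThresholdFails
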