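import Pool.Agent.R97.AsymSum

/-!
MP_697cf1_co, Q1 is false, for every pair `m > ℓ ≥ 1`.
-/

set_option autoImplicit false

open Filter

namespace Pool.Agent.Results.MP_697cf1_co.ShiftThresholdFails

/-- the upper natural density of a set `A` of positive integers,
`limsup_N |A ∩ {1, …, N}| / N` -/
noncomputable def upperDensity (A : Set ℕ) : ℝ :=
  limsup (fun N : ℕ => ((A ∩ Set.Icc 1 N).ncard : ℝ) / (N : ℝ)) atTop

/-- the set `m B + ℓ B + t` of all `m b₁ + ℓ b₂ + t` with `b₁, b₂ ∈ B`, in both orders and with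
`b₁ = b₂` allowed -/
def sums (m l t : ℕ) (B : Set ℕ) : Set ℕ := {x | ∃ b₁ ∈ B, ∃ b₂ ∈ B, x = m * b₁ + l * b₂ + t}

/-- For all integers `m > ℓ ≥ 1`, with `k = m / ℓ`, there is a set `A` of positive integers of upper
density larger than `(k + 1) / (k + 2)` that contains no set `m B + ℓ B + t` with `B` infinite. -/
theorem result (m l : ℕ) (hl : 1 ≤ l) (hlm : l < m) :
    ∃ A : Set ℕ, 0 ∉ A ∧ ((m : ℝ) / l + 1) / ((m : ℝ) / l + 2) < upperDensity A ∧
      ∀ B : Set ℕ, B.Infinite → ∀ t : ℕ, ¬ sums m l t B ⊆ A := by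
  obtain ⟨A, h0, h1, h2⟩ := Pool.Agent.R97.AsymSum.main m l 1 hl hlm le_rfl (one_dvd _)
  refine ⟨A, h0, ?_, fun B hB t => h2 B hB t (one_dvd _)⟩
  have hl0 : (0 : ℝ) < l := by exact_mod_cast hl
  have hm0 : (0 : ℝ) < m := by exact_mod_cast (by omega : 0 < m)
  have e : ((m : ℝ) / l + 1) / ((m : ℝ) / l + 2) = 1 - (l : ℝ) / (((1 : ℕ) : ℝ) * (m + 2 * l)) := by
    push_cast
    field_simp
    ring
  rw [e]
  exact h1

end Pool.Agent.Results.MP_697cf1_co.ShiftThresholdFails
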